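import Mathlib

/-!
# Multiplicative dependence: definitions, triangular independence
-/

namespace Pool.Agent.V1184.MD

open Finset

/-- The subtuple of `a` indexed by `s` is multiplicatively dependent: some integer exponents,
not all zero on `s`, give product `1`. -/
def MulDepOn {n : ℕ} (a : Fin n → ℤ) (s : Finset (Fin n)) : Prop :=
  ∃ k : Fin n → ℤ, (∃ i ∈ s, k i ≠ 0) ∧ ∏ i ∈ s, (a i : ℚ) ^ k i = 1

/-- `a` is `k`-multiplicatively dependent: some `k`-subtuple is multiplicatively dependent and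
every `(k-1)`-subtuple is multiplicatively independent. -/
def KMulDep {n : ℕ} (k : ℕ) (a : Fin n → ℤ) : Prop :=
  (∃ s : Finset (Fin n), s.card = k ∧ MulDepOn a s) ∧
    ∀ s : Finset (Fin n), s.card = k - 1 → ¬ MulDepOn a s

theorem val_prod (p : ℕ) [hp : Fact p.Prime] (f : ℕ → ℕ) (hf : ∀ i, f i ≠ 0) (e : ℕ → ℤ)
    (m : ℕ) :
    padicValRat p (∏ i ∈ range m, (f i : ℚ) ^ e i) =
      ∑ i ∈ range m, e i * (padicValNat p (f i) : ℤ) := by
  induction m with
  | zero => simp
  | succ m ih =>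
    have h0 : ∀ i, (f i : ℚ) ≠ 0 := fun i => by exact_mod_cast hf i
    have h1 : (∏ i ∈ range m, (f i : ℚ) ^ e i) ≠ 0 :=
      prod_ne_zero_iff.mpr (fun i _ => zpow_ne_zero _ (h0 i))
    have h2 : (f m : ℚ) ^ e m ≠ 0 := zpow_ne_zero _ (h0 m)
    rw [prod_range_succ, sum_range_succ, padicValRat.mul h1 h2, ih, padicValRat.zpow,
      padicValRat.of_nat]

/-- Triangular independence. -/
theorem triangular (f : ℕ → ℕ) (hf : ∀ i, f i ≠ 0) (m : ℕ)
    (h : ∀ j < m, ∃ p : ℕ, p.Prime ∧ p ∣ f j ∧ ∀ i < j, ¬ p ∣ f i)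
    (e : ℕ → ℤ) (he : ∏ i ∈ range m, (f i : ℚ) ^ e i = 1) : ∀ i < m, e i = 0 := by
  induction m with
  | zero => intro i hi; omega
  | succ m ih =>
    obtain ⟨p, hp, hpm, hpi⟩ := h m (Nat.lt_succ_self m)
    have : Fact p.Prime := ⟨hp⟩
    have h1 := val_prod p f hf e (m + 1)
    rw [he, sum_range_succ] at h1
    have h2 : ∑ i ∈ range m, e i * (padicValNat p (f i) : ℤ) = 0 := by
      apply sum_eq_zero
      intro i hi
      rw [padicValNat.eq_zero_of_not_dvd (hpi i (mem_range.mp hi))]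
      simp
    rw [h2] at h1
    simp only [padicValRat.one, zero_add] at h1
    have h3 : padicValNat p (f m) ≠ 0 := by
      have := one_le_padicValNat_of_dvd (hf m) hpm
      omega
    have hem : e m = 0 := by
      rcases mul_eq_zero.mp h1.symm with h4 | h4
      · exact h4
      · exact absurd (by exact_mod_cast h4) h3
    have he' : ∏ i ∈ range m, (f i : ℚ) ^ e i = 1 := by
      rw [prod_range_succ, hem, zpow_zero, mul_one] at he
      exact he
    intro i hi
    rcases Nat.lt_succ_iff_lt_or_eq.mp hi with h5 | h5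
    · exact ih (fun j hj => h j (by omega)) he' i h5
    · rw [h5]; exact hem

/-- If `κ` is a relation with nonzero entries and last entry `-1`, and all but the last entry
are independent, then a relation with a zero entry is trivial. -/
theorem rank_one (f : ℕ → ℕ) (hf : ∀ i, f i ≠ 0) (M : ℕ) (κ : ℕ → ℤ)
    (hκ : ∏ i ∈ range (M + 1), (f i : ℚ) ^ κ i = 1) (hne : ∀ i < M + 1, κ i ≠ 0)
    (hM : κ M = -1)
    (hind : ∀ e : ℕ → ℤ, ∏ i ∈ range M, (f i : ℚ) ^ e i = 1 → ∀ i < M, e i = 0)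
    (e : ℕ → ℤ) (he : ∏ i ∈ range (M + 1), (f i : ℚ) ^ e i = 1)
    (hz : ∃ i < M + 1, e i = 0) : ∀ i < M + 1, e i = 0 := by
  have h0 : ∀ i, (f i : ℚ) ≠ 0 := fun i => by exact_mod_cast hf i
  have h1 : ∏ i ∈ range (M + 1), (f i : ℚ) ^ (e i + e M * κ i) = 1 := by
    have : ∀ i ∈ range (M + 1), (f i : ℚ) ^ (e i + e M * κ i) =
        (f i : ℚ) ^ e i * ((f i : ℚ) ^ κ i) ^ (e M) := by
      intro i _
      rw [zpow_add₀ (h0 i), mul_comm (e M) (κ i), zpow_mul]
    rw [prod_congr rfl this, prod_mul_distrib, he, prod_zpow, hκ]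
    simp
  rw [prod_range_succ, hM] at h1
  have h2 : e M + e M * -1 = 0 := by ring
  rw [h2, zpow_zero, mul_one] at h1
  have h3 := hind _ h1
  have hM0 : e M = 0 := by
    obtain ⟨i, hi, hi0⟩ := hz
    rcases Nat.lt_succ_iff_lt_or_eq.mp hi with h5 | h5
    · have := h3 i h5
      rw [hi0, zero_add] at this
      rcases mul_eq_zero.mp this with h6 | h6
      · exact h6
      · exact absurd h6 (hne i hi)
    · rw [h5] at hi0; exact hi0
  intro i hi
  rcases Nat.lt_succ_iff_lt_or_eq.mp hi with h5 | h5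
  · have := h3 i h5
    rw [hM0] at this
    simpa using this
  · rw [h5]; exact hM0

theorem kMulDep_of (f : ℕ → ℕ) (hf : ∀ i, f i ≠ 0) (M : ℕ) (κ : ℕ → ℤ)
    (hκ : ∏ i ∈ range (M + 1), (f i : ℚ) ^ κ i = 1) (hne : ∀ i < M + 1, κ i ≠ 0)
    (hM : κ M = -1)
    (hind : ∀ e : ℕ → ℤ, ∏ i ∈ range M, (f i : ℚ) ^ e i = 1 → ∀ i < M, e i = 0)
    (a : Fin (M + 1) → ℤ) (ha : ∀ i, a i = (f i : ℤ)) : KMulDep (M + 1) a := by
  have haq : ∀ i : Fin (M + 1), (a i : ℚ) = (f i : ℚ) := by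
    intro i; rw [ha i]; simp
  refine ⟨⟨univ, by simp, fun i => κ i, ⟨0, by simp, ?_⟩, ?_⟩, ?_⟩
  · simpa using hne 0 (Nat.succ_pos M)
  · rw [← hκ, ← Fin.prod_univ_eq_prod_range (fun i => (f i : ℚ) ^ κ i) (M + 1)]
    exact prod_congr rfl (fun i _ => by rw [haq i])
  · rintro s hs ⟨k, ⟨i1, hi1, hk1⟩, hk⟩
    classical
    have hex : ∃ i0 : Fin (M + 1), i0 ∉ s := by
      by_contra hcon
      push Not at hcon
      have : s = univ := eq_univ_iff_forall.mpr hcon
      rw [this, card_univ, Fintype.card_fin] at hs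
      omega
    obtain ⟨i0, hi0⟩ := hex
    let e : ℕ → ℤ := fun j => if h : j < M + 1 then (if (⟨j, h⟩ : Fin (M + 1)) ∈ s then
      k ⟨j, h⟩ else 0) else 0
    have he : ∀ i : Fin (M + 1), e i = if i ∈ s then k i else 0 := by
      intro i
      simp only [e]
      rw [dif_pos i.2]
    have hprod : ∏ i ∈ range (M + 1), (f i : ℚ) ^ e i = 1 := by
      rw [← Fin.prod_univ_eq_prod_range (fun i => (f i : ℚ) ^ e i) (M + 1), ← hk]
      rw [← prod_subset (subset_univ s)]
      · apply prod_congr rfl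
        intro i hi
        rw [he i, if_pos hi, haq i]
      · intro i _ hi
        rw [he i, if_neg hi, zpow_zero]
    have := rank_one f hf M κ hκ hne hM hind e hprod
      ⟨i0, i0.2, by rw [he i0, if_neg hi0]⟩ i1 i1.2
    rw [he i1, if_pos hi1] at this
    exact hk1 this

end Pool.Agent.V1184.MD
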