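import Pool.Agent.V1184.MD.Basic

/-!
# The sequences `s i`, `b i = s i + 1` and the numbers `Q`, `B`, `c`, `U`
-/

namespace Pool.Agent.V1184.MD

open Finset

/-- `T 0 = 2`, `T (i+1) = T i (T i + 1) (T i + 2)`. -/
def T : ℕ → ℕ
  | 0 => 2
  | i + 1 => T i * (T i + 1) * (T i + 2)

theorem two_le_T (i : ℕ) : 2 ≤ T i := by
  induction i with
  | zero => simp [T]
  | succ i ih =>
    have : T (i + 1) = T i * (T i + 1) * (T i + 2) := rfl
    rw [this, mul_assoc]
    exact ih.trans (Nat.le_mul_of_pos_right _ (by positivity))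

theorem T_dvd {i j : ℕ} (h : i < j) : T i * (T i + 1) * (T i + 2) ∣ T j := by
  induction j with
  | zero => omega
  | succ j ih =>
    rcases Nat.lt_succ_iff_lt_or_eq.mp h with h1 | h1
    · exact (ih h1).trans ⟨(T j + 1) * (T j + 2), by rw [T]; ring⟩
    · rw [h1]; exact ⟨1, by rw [T]; ring⟩

theorem T_even (i : ℕ) : 2 ∣ T i := by
  rcases Nat.eq_zero_or_pos i with h | h
  · rw [h]; exact ⟨1, rfl⟩
  · refine dvd_trans ?_ (T_dvd h)
    simp [T]

theorem four_dvd_T {i : ℕ} (h : 0 < i) : 4 ∣ T i := by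
  refine dvd_trans ?_ (T_dvd h)
  simp only [T]; norm_num

theorem s_dvd_T {i j : ℕ} (h : i < j) : T i + 1 ∣ T j :=
  dvd_trans ⟨T i * (T i + 2), by ring⟩ (T_dvd h)

theorem b_dvd_T {i j : ℕ} (h : i < j) : T i + 2 ∣ T j :=
  dvd_trans ⟨T i * (T i + 1), by ring⟩ (T_dvd h)

theorem T_lt {i : ℕ} : T i + 1 < T (i + 1) := by
  have h := two_le_T i
  have : T (i + 1) = T i * (T i + 1) * (T i + 2) := rfl
  rw [this]; nlinarith [mul_pos (show 0 < T i by omega) (show 0 < T i + 1 by omega)]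

/-- a prime of `s i` divides no earlier `s j` -/
theorem s_prime (i : ℕ) : ∃ p : ℕ, p.Prime ∧ p ∣ T i + 1 ∧ ∀ j < i, ¬ p ∣ T j + 1 := by
  have h2 := two_le_T i
  obtain ⟨p, hp, hpd⟩ := Nat.exists_prime_and_dvd (show T i + 1 ≠ 1 by omega)
  refine ⟨p, hp, hpd, fun j hj hpj => ?_⟩
  have h3 : p ∣ T i := hpj.trans (s_dvd_T hj)
  have h4 : p ∣ 1 := (Nat.dvd_add_right h3).mp hpd
  exact hp.one_lt.ne' (Nat.dvd_one.mp h4)

/-- a prime of `b i` divides no earlier `b j` -/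
theorem b_prime (i : ℕ) : ∃ p : ℕ, p.Prime ∧ p ∣ T i + 2 ∧ ∀ j < i, ¬ p ∣ T j + 2 := by
  rcases Nat.eq_zero_or_pos i with h | h
  · subst h
    exact ⟨2, Nat.prime_two, by simp [T], fun j hj => by omega⟩
  · obtain ⟨q, hq⟩ := four_dvd_T h
    have h2 := two_le_T i
    obtain ⟨p, hp, hpd⟩ := Nat.exists_prime_and_dvd (show 2 * q + 1 ≠ 1 by omega)
    refine ⟨p, hp, hpd.trans ⟨2, by rw [hq]; ring⟩, fun j hj hpj => ?_⟩
    have h3 : p ∣ T i := hpj.trans (b_dvd_T hj)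
    have h5 : p ∣ T i + 2 := hpd.trans ⟨2, by rw [hq]; ring⟩
    have h4 : p ∣ 2 := (Nat.dvd_add_right h3).mp h5
    have h6 : p = 2 := (Nat.prime_dvd_prime_iff_eq hp Nat.prime_two).mp h4
    rw [h6] at hpd
    omega

/-- product of the `s i` -/
def Q (k : ℕ) : ℕ := ∏ i ∈ range k, (T i + 1)

/-- product of the `b i` -/
def B (k : ℕ) : ℕ := ∏ i ∈ range k, (T i + 2)

theorem coprime_sb (i j : ℕ) : Nat.Coprime (T i + 1) (T j + 2) := by
  rw [Nat.coprime_iff_gcd_eq_one]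
  by_contra hcon
  obtain ⟨p, hp, hpd⟩ := Nat.exists_prime_and_dvd hcon
  have h1 : p ∣ T i + 1 := hpd.trans (Nat.gcd_dvd_left _ _)
  have h2 : p ∣ T j + 2 := hpd.trans (Nat.gcd_dvd_right _ _)
  rcases lt_trichotomy i j with h | h | h
  · have h3 : p ∣ T j := h1.trans (s_dvd_T h)
    have h4 : p ∣ 2 := (Nat.dvd_add_right h3).mp h2
    have h5 : p ∣ T i := h4.trans (T_even i)
    exact hp.one_lt.ne' (Nat.dvd_one.mp ((Nat.dvd_add_right h5).mp h1))
  · subst h
    have h3 : p ∣ (T i + 1) + 1 := by simpa using h2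
    exact hp.one_lt.ne' (Nat.dvd_one.mp ((Nat.dvd_add_right h1).mp h3))
  · have h3 : p ∣ T i := h2.trans (b_dvd_T h)
    exact hp.one_lt.ne' (Nat.dvd_one.mp ((Nat.dvd_add_right h3).mp h1))

theorem coprime_QB (k : ℕ) : Nat.Coprime (Q k) (B k) := by
  unfold Q B
  exact Nat.Coprime.prod_left (fun i _ => Nat.Coprime.prod_right (fun j _ => coprime_sb i j))

theorem s_dvd_Q {k i : ℕ} (h : i < k) : T i + 1 ∣ Q k :=
  dvd_prod_of_mem (fun i => T i + 1) (mem_range.mpr h)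

theorem b_dvd_B {k i : ℕ} (h : i < k) : T i + 2 ∣ B k :=
  dvd_prod_of_mem (fun i => T i + 2) (mem_range.mpr h)

theorem three_dvd_Q {k : ℕ} (h : 0 < k) : 3 ∣ Q k := by
  have := s_dvd_Q h
  simpa [T] using this

theorem four_dvd_B {k : ℕ} (h : 0 < k) : 4 ∣ B k := by
  have := b_dvd_B h
  simpa [T] using this

theorem Q_pos (k : ℕ) : 0 < Q k := prod_pos (fun i _ => Nat.succ_pos _)

theorem B_pos (k : ℕ) : 0 < B k := prod_pos (fun i _ => Nat.succ_pos _)

section numbers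

variable {k f : ℕ}

/-- the modulus property of the exponent -/
def Good (k f : ℕ) : Prop :=
  Q k + 1 ≤ f ∧ ∀ m, 0 < m → m ≤ Q k + 1 → Nat.Coprime (B k) m → (B k) ^ f ≡ 1 [MOD m]

theorem good_factorial (k t : ℕ) : Good k ((Q k + 1).factorial * (t + 1)) := by
  constructor
  · calc Q k + 1 ≤ (Q k + 1).factorial := Nat.self_le_factorial _
      _ ≤ (Q k + 1).factorial * (t + 1) := Nat.le_mul_of_pos_right _ (Nat.succ_pos t)
  · intro m hm hle hcop
    have h1 : Nat.totient m ∣ (Q k + 1).factorial :=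
      Nat.dvd_factorial (Nat.totient_pos.mpr hm) ((Nat.totient_le m).trans hle)
    obtain ⟨r, hr⟩ := h1.mul_right (t + 1)
    rw [hr, pow_mul]
    have h2 := (Nat.ModEq.pow_totient hcop).pow r
    simpa using h2

/-- `c` -/
def c (k f : ℕ) : ℕ := 1 + Q k * (B k) ^ f

/-- `U = (c+1) B^f` -/
def U (k f : ℕ) : ℕ := (c k f + 1) * (B k) ^ f

/-- `W = U - 1` -/
def W (k f : ℕ) : ℕ := U k f - 1

theorem U_pos : 0 < U k f := Nat.mul_pos (Nat.succ_pos _) (pow_pos (B_pos k) f)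

theorem W_add : W k f + 1 = U k f := Nat.succ_pred_eq_of_pos U_pos

theorem QU : Q k * U k f + 1 = (c k f) ^ 2 := by
  unfold U c; ring

theorem QW : Q k * W k f + (Q k + 1) = (c k f) ^ 2 := by
  rw [← QU, ← W_add]; ring

theorem Q_lt_c : Q k < c k f := by
  unfold c
  have := Nat.le_mul_of_pos_right (Q k) (pow_pos (B_pos k) f)
  omega

theorem W_big (hk : 0 < k) (hf : 0 < f) : c k f + 1 < W k f := by
  have h1 : 4 ≤ (B k) ^ f :=
    Nat.le_of_dvd (pow_pos (B_pos k) f) ((four_dvd_B hk).trans (dvd_pow_self _ hf.ne'))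
  have h2 : (c k f + 1) * 4 ≤ U k f := Nat.mul_le_mul_left _ h1
  unfold W; omega

theorem not_dvd_B_of_dvd_c {p : ℕ} (hp : p.Prime) (hf : 0 < f) (h : p ∣ c k f) : ¬ p ∣ B k := by
  intro hB
  have h1 : p ∣ Q k * (B k) ^ f := (hB.trans (dvd_pow_self _ hf.ne')).mul_left _
  have h2 : p ∣ 1 := by
    have := (Nat.dvd_add_left h1).mp h
    exact this
  exact hp.one_lt.ne' (Nat.dvd_one.mp h2)

theorem W_coprime_Q (hk : 0 < k) (hg : Good k f) {p : ℕ} (hp : p.Prime) (hW : p ∣ W k f) :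
    ¬ p ∣ Q k := by
  intro hQ
  have hple : p ≤ Q k + 1 := (Nat.le_of_dvd (Q_pos k) hQ).trans (Nat.le_succ _)
  have hcop : Nat.Coprime (B k) p :=
    ((Nat.coprime_comm.mp (coprime_QB k)).coprime_dvd_right hQ)
  have hR := hg.2 p hp.pos hple hcop
  have hc : c k f ≡ 1 [MOD p] := by
    unfold c
    have : Q k * (B k) ^ f ≡ 0 [MOD p] := (Nat.modEq_zero_iff_dvd).mpr (hQ.mul_right _)
    simpa using (Nat.ModEq.refl 1).add this
  have hU : U k f ≡ 2 [MOD p] := by
    unfold U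
    have := (hc.add (Nat.ModEq.refl 1)).mul hR
    simpa using this
  have h1 : W k f + 1 ≡ 1 [MOD p] := by
    have : W k f ≡ 0 [MOD p] := (Nat.modEq_zero_iff_dvd).mpr hW
    simpa using this.add (Nat.ModEq.refl 1)
  rw [W_add] at h1
  have h2 : 2 ≡ 1 [MOD p] := hU.symm.trans h1
  have h3 : p ∣ 2 - 1 := (Nat.modEq_iff_dvd' (by norm_num)).mp h2.symm
  exact hp.one_lt.ne' (Nat.dvd_one.mp h3)

theorem W_prime (hk : 0 < k) (hg : Good k f) :
    ∃ p : ℕ, p.Prime ∧ p ∣ W k f ∧ ¬ p ∣ Q k ∧ ¬ p ∣ c k f := by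
  have hf : 0 < f := lt_of_lt_of_le (Nat.succ_pos _) hg.1
  by_contra hcon
  push Not at hcon
  have hall : ∀ p : ℕ, p.Prime → p ∣ W k f → p ∣ c k f :=
    fun p hp h => hcon p hp h (W_coprime_Q hk hg hp h)
  have hdvd : W k f ∣ Q k + 1 := by
    rw [Nat.dvd_iff_prime_pow_dvd_dvd]
    intro p j hp
    induction j with
    | zero => intro _; simp
    | succ j ih =>
      intro hj
      have hpW : p ∣ W k f := (dvd_pow_self p (Nat.succ_ne_zero j)).trans hj
      have hpc := hall p hp hpW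
      have hj' : p ^ j ∣ W k f := (pow_dvd_pow p (Nat.le_succ j)).trans hj
      have h1 := ih hj'
      have hcop : Nat.Coprime (B k) (p ^ j) :=
        (Nat.coprime_comm.mp ((hp.coprime_iff_not_dvd).mpr
          (not_dvd_B_of_dvd_c hp hf hpc))).pow_right j
      have hR := hg.2 (p ^ j) (pow_pos hp.pos j) (Nat.le_of_dvd (Nat.succ_pos _) h1) hcop
      have hcj : p ^ j ∣ c k f := by
        have h2 : c k f ≡ Q k + 1 [MOD p ^ j] := by
          unfold c
          have := (Nat.ModEq.refl 1).add ((Nat.ModEq.refl (Q k)).mul hR)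
          rw [mul_one, add_comm 1 (Q k)] at this
          exact this
        exact (h2.dvd_iff dvd_rfl).mpr h1
      have hc2 : p ^ (j + 1) ∣ (c k f) ^ 2 := by
        rcases Nat.eq_zero_or_pos j with h0 | h0
        · subst h0
          rw [zero_add, pow_one]
          exact hpc.trans (dvd_pow_self _ (by norm_num))
        · have h3 : (p ^ j) ^ 2 ∣ (c k f) ^ 2 := pow_dvd_pow_of_dvd hcj 2
          rw [← pow_mul] at h3
          exact (pow_dvd_pow p (by omega)).trans h3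
      rw [← QW] at hc2
      exact (Nat.dvd_add_right (hj.mul_left (Q k))).mp hc2
  have h1 := Nat.le_of_dvd (Nat.succ_pos _) hdvd
  have h2 := W_big hk hf
  have h3 := Q_lt_c (k := k) (f := f)
  omega

theorem Z_eq (hk : 0 < k) : (Q k * W k f + 1) + (Q k - 1) = Q k * U k f := by
  have := Q_pos k
  rw [← W_add, mul_add]; omega

theorem Z_prime (hk : 0 < k) (hg : Good k f) :
    ∃ p : ℕ, p.Prime ∧ p ∣ Q k * W k f + 1 ∧ ¬ p ∣ B k ∧ ¬ p ∣ c k f + 1 := by
  have hf : 0 < f := lt_of_lt_of_le (Nat.succ_pos _) hg.1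
  have hQ3 : 3 ≤ Q k := Nat.le_of_dvd (Q_pos k) (three_dvd_Q hk)
  by_contra hcon
  push Not at hcon
  have hdvd : Q k * W k f + 1 ∣ Q k - 1 := by
    rw [Nat.dvd_iff_prime_pow_dvd_dvd]
    intro p j hp hj
    rcases Nat.eq_zero_or_pos j with h0 | h0
    · subst h0; simp
    have hpZ : p ∣ Q k * W k f + 1 := (dvd_pow_self p h0.ne').trans hj
    have hkey : ∀ d, d ∣ Q k * W k f + 1 → d ∣ U k f → d ∣ Q k - 1 := by
      intro d h1 h2
      have h3 : d ∣ (Q k * W k f + 1) + (Q k - 1) := by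
        rw [Z_eq hk]; exact h2.mul_left _
      exact (Nat.dvd_add_right h1).mp h3
    have hpB : p ∣ B k := by
      by_contra hB
      have hc := hcon p hp hpZ hB
      have hpU : p ∣ U k f := hc.mul_right _
      have hpQ := hkey p hpZ hpU
      have hple : p ≤ Q k + 1 := by
        have := Nat.le_of_dvd (by omega) hpQ
        omega
      have hR := hg.2 p hp.pos hple (Nat.coprime_comm.mp ((hp.coprime_iff_not_dvd).mpr hB))
      have hQ1 : Q k ≡ 1 [MOD p] := by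
        have := (Nat.modEq_iff_dvd' (show 1 ≤ Q k by omega)).mpr hpQ
        exact this.symm
      have hc3 : c k f + 1 ≡ 3 [MOD p] := by
        unfold c
        have := ((Nat.ModEq.refl 1).add (hQ1.mul hR)).add (Nat.ModEq.refl 1)
        simpa using this
      have hp3 : p ∣ 3 := (hc3.dvd_iff dvd_rfl).mp hc
      have hp3' : p = 3 := (Nat.prime_dvd_prime_iff_eq hp Nat.prime_three).mp hp3
      subst hp3'
      have h3Q := three_dvd_Q hk
      omega
    rcases Nat.le_total j f with hjf | hjf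
    · apply hkey _ hj
      have : p ^ j ∣ (B k) ^ f := (pow_dvd_pow p hjf).trans (pow_dvd_pow_of_dvd hpB f)
      exact this.mul_left _
    · exfalso
      have h1 : p ^ f ∣ Q k - 1 := by
        apply hkey _ ((pow_dvd_pow p hjf).trans hj)
        exact (pow_dvd_pow_of_dvd hpB f).mul_left _
      have h2 := Nat.le_of_dvd (by omega) h1
      have h3 : f < p ^ f := Nat.lt_pow_self hp.one_lt
      have := hg.1
      omega
  have h1 := Nat.le_of_dvd (by omega) hdvd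
  have h2 := W_big hk hf
  have h3 : Q k * 1 ≤ Q k * W k f := Nat.mul_le_mul_left _ (by omega)
  omega

theorem c_prime (hk : 0 < k) (hf : 0 < f) : ∃ p : ℕ, p.Prime ∧ p ∣ c k f ∧ ¬ p ∣ Q k := by
  have h1 := Q_lt_c (k := k) (f := f)
  have h2 := Q_pos k
  obtain ⟨p, hp, hpd⟩ := Nat.exists_prime_and_dvd (show c k f ≠ 1 by omega)
  refine ⟨p, hp, hpd, fun h => ?_⟩
  have h3 : p ∣ 1 := (Nat.dvd_add_left (h.mul_right ((B k) ^ f))).mp hpd
  exact hp.one_lt.ne' (Nat.dvd_one.mp h3)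

theorem c1_prime (hk : 0 < k) (hf : 0 < f) : ∃ p : ℕ, p.Prime ∧ p ∣ c k f + 1 ∧ ¬ p ∣ B k := by
  obtain ⟨q, hq⟩ : 4 ∣ Q k * (B k) ^ f := ((four_dvd_B hk).trans (dvd_pow_self _ hf.ne')).mul_left _
  have h0 : 0 < Q k * (B k) ^ f := Nat.mul_pos (Q_pos k) (pow_pos (B_pos k) f)
  have hc : c k f + 1 = 2 * (2 * q + 1) := by unfold c; rw [hq]; ring
  obtain ⟨p, hp, hpd⟩ := Nat.exists_prime_and_dvd (show 2 * q + 1 ≠ 1 by omega)
  refine ⟨p, hp, by rw [hc]; exact hpd.mul_left 2, fun h => ?_⟩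
  have h1 : p ∣ Q k * (B k) ^ f := (h.trans (dvd_pow_self _ hf.ne')).mul_left _
  have h2 : p ∣ Q k * (B k) ^ f + 2 := by
    have : Q k * (B k) ^ f + 2 = c k f + 1 := by unfold c; ring
    rw [this, hc]; exact hpd.mul_left 2
  have h3 : p ∣ 2 := (Nat.dvd_add_right h1).mp h2
  have h6 : p = 2 := (Nat.prime_dvd_prime_iff_eq hp Nat.prime_two).mp h3
  rw [h6] at hpd
  omega

end numbers

end Pool.Agent.V1184.MD
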