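import Pool.Agent.V1184.MD.Seq

/-!
# The tuples and the main theorem
-/

namespace Pool.Agent.V1184.MD

open Finset

/-- the tuple: `s 0, …, s (k-1), c, z, w` -/
def F1 (k f : ℕ) (i : ℕ) : ℕ :=
  if i < k then T i + 1 else if i = k then c k f else
    if i = k + 1 then Q k * W k f else (c k f) ^ 2 * W k f

/-- the shifted tuple: `b 0, …, b (k-1), c + 1, z + 1, w + 1` -/
def F2 (k f : ℕ) (i : ℕ) : ℕ := F1 k f i + 1

section

variable {k f : ℕ}

theorem F1_lt {i : ℕ} (h : i < k) : F1 k f i = T i + 1 := by simp [F1, h]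
theorem F1_k : F1 k f k = c k f := by simp [F1]
theorem F1_k1 : F1 k f (k + 1) = Q k * W k f := by simp [F1]
theorem F1_k2 : F1 k f (k + 2) = (c k f) ^ 2 * W k f := by simp [F1]

theorem F1_big (hk : 0 < k) (hf : 0 < f) (i : ℕ) : 1 < F1 k f i := by
  have h1 := W_big hk hf
  have h2 := Q_lt_c (k := k) (f := f)
  have h3 := Q_pos k
  have h4 := two_le_T i
  unfold F1
  split_ifs
  · omega
  · omega
  · have : 1 * W k f ≤ Q k * W k f := Nat.mul_le_mul_right _ h3
    omega
  · have : 1 * W k f ≤ (c k f) ^ 2 * W k f :=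
      Nat.mul_le_mul_right _ (pow_pos (show 0 < c k f by omega) 2)
    omega

theorem F1_step (hk : 0 < k) (hf : 0 < f) {i : ℕ} (hi : i < k + 2) :
    F1 k f i < F1 k f (i + 1) := by
  have h1 := W_big hk hf
  have h2 := Q_lt_c (k := k) (f := f)
  have h3 := Q_pos k
  rcases lt_trichotomy (i + 1) k with h | h | h
  · rw [F1_lt (by omega : i < k), F1_lt h]
    have := T_lt (i := i)
    omega
  · rw [F1_lt (by omega : i < k), h, F1_k]
    exact (Nat.le_of_dvd h3 (s_dvd_Q (by omega))).trans_lt h2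
  · rcases Nat.lt_or_ge i (k + 1) with h5 | h5
    · have : i = k := by omega
      subst this
      rw [F1_k, F1_k1]
      have : 1 * W i f ≤ Q i * W i f := Nat.mul_le_mul_right _ h3
      omega
    · have : i = k + 1 := by omega
      subst this
      rw [F1_k1, F1_k2]
      apply Nat.mul_lt_mul_of_pos_right _ (by omega)
      calc Q k < c k f := h2
        _ ≤ (c k f) ^ 2 := Nat.le_self_pow (by norm_num) _

theorem F1_strict (hk : 0 < k) (hf : 0 < f) {i j : ℕ} (hij : i < j) (hj : j < k + 3) :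
    F1 k f i < F1 k f j := by
  induction j with
  | zero => omega
  | succ j ih =>
    have h1 := F1_step hk hf (show j < k + 2 by omega)
    rcases Nat.lt_succ_iff_lt_or_eq.mp hij with h | h
    · exact (ih h (by omega)).trans h1
    · rw [h]; exact h1

/-- exponents of the relation in the tuple -/
def κ1 (k : ℕ) (i : ℕ) : ℤ :=
  if i < k then -1 else if i = k then 2 else if i = k + 1 then 1 else -1

/-- exponents of the relation in the shifted tuple -/
def κ2 (k f : ℕ) (i : ℕ) : ℤ :=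
  if i < k then f else if i = k then 1 else if i = k + 1 then 1 else -1

theorem rel1 (hk : 0 < k) (hf : 0 < f) :
    ∏ i ∈ range (k + 2 + 1), (F1 k f i : ℚ) ^ κ1 k i = 1 := by
  have h1 := W_big hk hf
  have h2 := Q_lt_c (k := k) (f := f)
  have h3 := Q_pos k
  have hW : (W k f : ℚ) ≠ 0 := by
    have : W k f ≠ 0 := by omega
    exact_mod_cast this
  have hc : (c k f : ℚ) ≠ 0 := by
    have : c k f ≠ 0 := by omega
    exact_mod_cast this
  have hQ : (Q k : ℚ) ≠ 0 := by exact_mod_cast h3.ne'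
  rw [prod_range_succ, prod_range_succ, prod_range_succ]
  have ha : ∏ i ∈ range k, (F1 k f i : ℚ) ^ κ1 k i = (Q k : ℚ)⁻¹ := by
    have : ∀ i ∈ range k, (F1 k f i : ℚ) ^ κ1 k i = ((T i + 1 : ℕ) : ℚ)⁻¹ := by
      intro i hi
      rw [F1_lt (mem_range.mp hi)]
      simp [κ1, mem_range.mp hi]
    rw [prod_congr rfl this, prod_inv_distrib, Q, Nat.cast_prod]
  rw [ha, F1_k, F1_k1, F1_k2]
  simp only [κ1, lt_irrefl, if_false, if_true, show ¬ k + 1 < k by omega, show ¬ k + 1 = k by omega,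
    show ¬ k + 2 < k by omega, show ¬ k + 2 = k by omega, show ¬ k + 2 = k + 1 by omega]
  push_cast
  rw [zpow_neg_one, zpow_one, zpow_ofNat]
  field_simp

theorem rel2 (hk : 0 < k) (hf : 0 < f) :
    ∏ i ∈ range (k + 2 + 1), (F2 k f i : ℚ) ^ κ2 k f i = 1 := by
  rw [prod_range_succ, prod_range_succ, prod_range_succ]
  have ha : ∏ i ∈ range k, (F2 k f i : ℚ) ^ κ2 k f i = (B k : ℚ) ^ f := by
    have : ∀ i ∈ range k, (F2 k f i : ℚ) ^ κ2 k f i = ((T i + 2 : ℕ) : ℚ) ^ f := by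
      intro i hi
      rw [F2, F1_lt (mem_range.mp hi)]
      simp only [κ2, mem_range.mp hi, if_true, zpow_natCast]
    rw [prod_congr rfl this, prod_pow, B, Nat.cast_prod]
  have hw : (c k f) ^ 2 * W k f + 1 = U k f * (Q k * W k f + 1) := by
    have h1 := QU (k := k) (f := f)
    have h2 := W_add (k := k) (f := f)
    rw [← h1, ← h2]; ring
  have hU : (U k f : ℚ) = ((c k f : ℚ) + 1) * (B k : ℚ) ^ f := by
    unfold U; push_cast; ring
  have hz0 : ((Q k : ℚ) * W k f + 1) ≠ 0 := by positivity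
  have hU0 : (U k f : ℚ) ≠ 0 := by exact_mod_cast U_pos.ne'
  rw [ha, F2, F2, F2, F1_k, F1_k1, F1_k2, hw]
  simp only [κ2, lt_irrefl, if_false, if_true, show ¬ k + 1 < k by omega,
    show ¬ k + 1 = k by omega, show ¬ k + 2 < k by omega, show ¬ k + 2 = k by omega,
    show ¬ k + 2 = k + 1 by omega]
  push_cast
  rw [zpow_neg_one, zpow_one, zpow_one]
  rw [show (B k : ℚ) ^ f * ((c k f : ℚ) + 1) = U k f by rw [hU]; ring]
  field_simp

theorem κ1_ne (i : ℕ) : κ1 k i ≠ 0 := by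
  unfold κ1; split_ifs <;> norm_num

theorem κ2_ne (hf : 0 < f) (i : ℕ) : κ2 k f i ≠ 0 := by
  unfold κ2; split_ifs
  · exact_mod_cast hf.ne'
  all_goals norm_num

theorem κ1_last : κ1 k (k + 2) = -1 := by simp [κ1]
theorem κ2_last : κ2 k f (k + 2) = -1 := by simp [κ2]

theorem tri1 (hk : 0 < k) (hg : Good k f) : ∀ j < k + 2, ∃ p : ℕ, p.Prime ∧ p ∣ F1 k f j ∧
    ∀ i < j, ¬ p ∣ F1 k f i := by
  have hf : 0 < f := lt_of_lt_of_le (Nat.succ_pos _) hg.1
  intro j hj
  rcases lt_trichotomy j k with h | h | h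
  · obtain ⟨p, hp, h1, h2⟩ := s_prime j
    refine ⟨p, hp, by rw [F1_lt h]; exact h1, fun i hi => ?_⟩
    rw [F1_lt (hi.trans h)]; exact h2 i hi
  · subst h
    obtain ⟨p, hp, h1, h2⟩ := c_prime hk hf
    refine ⟨p, hp, by rw [F1_k]; exact h1, fun i hi hd => ?_⟩
    rw [F1_lt hi] at hd
    exact h2 (hd.trans (s_dvd_Q hi))
  · have : j = k + 1 := by omega
    subst this
    obtain ⟨p, hp, h1, h2, h3⟩ := W_prime hk hg
    refine ⟨p, hp, by rw [F1_k1]; exact h1.mul_left _, fun i hi hd => ?_⟩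
    rcases Nat.lt_succ_iff_lt_or_eq.mp hi with h4 | h4
    · rw [F1_lt h4] at hd
      exact h2 (hd.trans (s_dvd_Q h4))
    · subst h4
      rw [F1_k] at hd
      exact h3 hd

theorem tri2 (hk : 0 < k) (hg : Good k f) : ∀ j < k + 2, ∃ p : ℕ, p.Prime ∧ p ∣ F2 k f j ∧
    ∀ i < j, ¬ p ∣ F2 k f i := by
  have hf : 0 < f := lt_of_lt_of_le (Nat.succ_pos _) hg.1
  intro j hj
  unfold F2
  rcases lt_trichotomy j k with h | h | h
  · obtain ⟨p, hp, h1, h2⟩ := b_prime j
    refine ⟨p, hp, by rw [F1_lt h]; exact h1, fun i hi => ?_⟩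
    rw [F1_lt (hi.trans h)]; exact h2 i hi
  · subst h
    obtain ⟨p, hp, h1, h2⟩ := c1_prime hk hf
    refine ⟨p, hp, by rw [F1_k]; exact h1, fun i hi hd => ?_⟩
    rw [F1_lt hi] at hd
    exact h2 (hd.trans (b_dvd_B hi))
  · have : j = k + 1 := by omega
    subst this
    obtain ⟨p, hp, h1, h2, h3⟩ := Z_prime hk hg
    refine ⟨p, hp, by rw [F1_k1]; exact h1, fun i hi hd => ?_⟩
    rcases Nat.lt_succ_iff_lt_or_eq.mp hi with h4 | h4
    · rw [F1_lt h4] at hd
      exact h2 (hd.trans (b_dvd_B h4))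
    · subst h4
      rw [F1_k] at hd
      exact h3 hd

theorem kmul1 (hk : 0 < k) (hg : Good k f) :
    KMulDep (k + 2 + 1) (fun i : Fin (k + 2 + 1) => (F1 k f i : ℤ)) := by
  have hf : 0 < f := lt_of_lt_of_le (Nat.succ_pos _) hg.1
  have h0 : ∀ i, F1 k f i ≠ 0 := fun i => by have := F1_big hk hf i; omega
  exact kMulDep_of (F1 k f) h0 (k + 2) (κ1 k) (rel1 hk hf) (fun i _ => κ1_ne i) κ1_last
    (fun e he => triangular (F1 k f) h0 (k + 2) (tri1 hk hg) e he) _ (fun i => rfl)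

theorem kmul2 (hk : 0 < k) (hg : Good k f) :
    KMulDep (k + 2 + 1) (fun i : Fin (k + 2 + 1) => (F1 k f i : ℤ) + 1) := by
  have hf : 0 < f := lt_of_lt_of_le (Nat.succ_pos _) hg.1
  have h0 : ∀ i, F2 k f i ≠ 0 := fun i => Nat.succ_ne_zero _
  exact kMulDep_of (F2 k f) h0 (k + 2) (κ2 k f) (rel2 hk hf) (fun i _ => κ2_ne hf i) κ2_last
    (fun e he => triangular (F2 k f) h0 (k + 2) (tri2 hk hg) e he) _
    (fun i => by simp [F2])

end

/-- Main theorem. -/
theorem main (n : ℕ) (hn : 4 ≤ n) :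
    {a : Fin n → ℤ | Function.Injective a ∧ (∀ i, 1 < a i) ∧ KMulDep n a ∧
      KMulDep n (fun i => a i + 1)}.Infinite := by
  obtain ⟨k, rfl⟩ : ∃ k, n = k + 2 + 1 := ⟨n - 3, by omega⟩
  have hk : 0 < k := by omega
  have hgood := good_factorial k
  apply Set.infinite_of_injective_forall_mem
    (f := fun t : ℕ => fun i : Fin (k + 2 + 1) =>
      (F1 k ((Q k + 1).factorial * (t + 1)) i : ℤ))
  · intro t t' h
    have h1 := congrFun h ⟨k, by omega⟩
    simp only [F1_k, Nat.cast_inj] at h1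
    unfold c at h1
    have h2 : (B k) ^ ((Q k + 1).factorial * (t + 1)) = (B k) ^ ((Q k + 1).factorial * (t' + 1)) :=
      Nat.eq_of_mul_eq_mul_left (Q_pos k) (Nat.add_left_cancel h1)
    have hB : 2 ≤ B k := le_trans (by norm_num) (Nat.le_of_dvd (B_pos k) (four_dvd_B hk))
    have h3 := Nat.pow_right_injective hB h2
    have h4 := Nat.eq_of_mul_eq_mul_left (Nat.factorial_pos _) h3
    omega
  · intro t
    have hg := hgood t
    have hf : 0 < (Q k + 1).factorial * (t + 1) := lt_of_lt_of_le (Nat.succ_pos _) hg.1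
    refine ⟨?_, ?_, kmul1 hk hg, kmul2 hk hg⟩
    · intro i j hij
      simp only [Nat.cast_inj] at hij
      rcases lt_trichotomy (i : ℕ) (j : ℕ) with h | h | h
      · exact absurd hij (F1_strict hk hf h j.2).ne
      · exact Fin.ext h
      · exact absurd hij (F1_strict hk hf h i.2).ne'
    · intro i
      have := F1_big hk hf i
      beta_reduce
      exact_mod_cast this

end Pool.Agent.V1184.MD
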